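import Pool.Agent.helper60.XP.SpecE

set_option autoImplicit false

open Complex Metric Set Filter Topology MeasureTheory
open V3 (En ZL)

noncomputable section

namespace XPE

theorem FGR_lin (v : ℂ → ℂ) (hv : Differentiable ℂ v) (hv0 : v 0 = 0) (hv1 : deriv v 0 = 1)
    (A R₁ : ℝ) (hA : ∀ x : ℂ, R₁ ≤ ‖x‖ → ‖v x‖ ≤ A * ‖x‖) : ∀ x, v x = x := by
  have hw : Differentiable ℂ (dslope v 0) := by
    have h1 : DifferentiableOn ℂ (dslope v 0) Set.univ :=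
      (Complex.differentiableOn_dslope (Filter.univ_mem)).2 hv.differentiableOn
    exact differentiableOn_univ.1 h1
  have hbd : Bornology.IsBounded (Set.range (dslope v 0)) := by
    obtain ⟨M, hM⟩ := (isCompact_closedBall (0 : ℂ) (max R₁ 1)).exists_bound_of_continuousOn
      (f := dslope v 0) hw.continuous.continuousOn
    rw [isBounded_iff_forall_norm_le]
    refine ⟨max M A, ?_⟩
    rintro _ ⟨x, rfl⟩
    by_cases hx : ‖x‖ ≤ max R₁ 1
    · exact le_trans (hM x (by simpa using hx)) (le_max_left _ _)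
    · have hx' : max R₁ 1 < ‖x‖ := not_le.1 hx
      have h1 : R₁ ≤ ‖x‖ := le_trans (le_max_left _ _) hx'.le
      have h2 : 1 < ‖x‖ := lt_of_le_of_lt (le_max_right _ _) hx'
      have hx0 : x ≠ 0 := by
        intro h0
        rw [h0, norm_zero] at h2
        linarith
      rw [dslope_of_ne _ hx0, slope_def_field, hv0, sub_zero, sub_zero, norm_div]
      refine le_trans ?_ (le_max_right _ _)
      rw [div_le_iff₀ (by linarith)]
      exact hA x h1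
  intro x
  have hc : dslope v 0 x = dslope v 0 0 := hw.apply_eq_apply_of_bounded hbd x 0
  rw [dslope_same, hv1] at hc
  by_cases hx0 : x = 0
  · rw [hx0, hv0]
  · rw [dslope_of_ne _ hx0, slope_def_field, hv0, sub_zero, sub_zero] at hc
    field_simp at hc
    exact hc

theorem FGR (h : FPP_stmt) : FGR_stmt := by
  intro Pf N B v q d C hN hdeg hB hv hq hqB hqC hv0 hv1
  obtain ⟨c₀, K, R₀, κ, hc₀, hR₀, hκ, hF⟩ := h Pf N B d hN hdeg hB
  have hC : 0 ≤ C := by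
    have h1 := hqC 0
    simp only [norm_zero, add_zero, one_pow, mul_one] at h1
    exact le_trans (norm_nonneg _) h1
  obtain ⟨R₁, hR1a, hR1b, hR1c⟩ : ∃ R₁ : ℝ, R₀ ≤ R₁ ∧ 1 ≤ R₁ ∧ ∀ p ∈ Pf, ‖p‖ < R₁ := by
    refine ⟨R₀ + 1 + ∑ p ∈ Pf, ‖p‖, ?_, ?_, ?_⟩
    · have : 0 ≤ ∑ p ∈ Pf, ‖p‖ := Finset.sum_nonneg fun _ _ => norm_nonneg _
      linarith
    · have : 0 ≤ ∑ p ∈ Pf, ‖p‖ := Finset.sum_nonneg fun _ _ => norm_nonneg _
      linarith
    · intro p hp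
      have : ‖p‖ ≤ ∑ p ∈ Pf, ‖p‖ :=
        Finset.single_le_sum (f := fun p : ℂ => ‖p‖) (fun _ _ => norm_nonneg _) hp
      linarith
  have hoff : ∀ x : ℂ, R₁ ≤ ‖x‖ → x ∉ Pf := fun x hx hp => absurd (hR1c x hp) (not_lt.2 hx)
  -- differentiability of B off Pf
  have hBd : ∀ x : ℂ, x ∉ Pf → DifferentiableAt ℂ B x := by
    intro x hx
    have h1 : DifferentiableAt ℂ (fun y => N.eval y / ∏ p ∈ Pf, (y - p) ^ 2) x := by
      refine DifferentiableAt.div N.differentiable.differentiableAt ?_ ?_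
      · exact DifferentiableAt.fun_finsetProd fun p _ =>
          ((differentiableAt_id.sub_const p).pow 2)
      · rw [Finset.prod_ne_zero_iff]
        intro p hp
        have : x - p ≠ 0 := by
          intro h0
          exact hx (by rw [sub_eq_zero.1 h0]; exact hp)
        exact pow_ne_zero 2 this
    refine h1.congr_of_eventuallyEq ?_
    have ho : IsOpen ((Pf : Set ℂ)ᶜ) := Pf.finite_toSet.isClosed.isOpen_compl
    filter_upwards [ho.mem_nhds (show x ∈ ((Pf : Set ℂ)ᶜ) by simpa using hx)] with y hy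
    exact hB y (by simpa using hy)
  have hFd : ∀ x : ℂ, R₁ ≤ ‖x‖ → HasDerivAt (fun y => v y ^ 2 * B y) (v x * q x) x := by
    intro x hx
    have h1 := (hv x).hasDerivAt
    have h2 := (hBd x (hoff x hx)).hasDerivAt
    have h3 := (h1.fun_pow 2).mul h2
    have h4 : v x * q x = (↑(2 : ℕ) * v x ^ (2 - 1) * deriv v x) * B x + v x ^ 2 * deriv B x := by
      rw [hqB x (hoff x hx)]
      push_cast
      ring
    rw [h4]
    exact h3
  have hFc : ContinuousOn (fun y => v y ^ 2 * B y) {x : ℂ | R₁ ≤ ‖x‖} := fun x hx =>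
    (hFd x hx).continuousAt.continuousWithinAt
  -- the maximum on the circle of radius R₁
  obtain ⟨m₁, hm₁⟩ : ∃ m₁ : ℝ, ∀ x : ℂ, ‖x‖ = R₁ → ‖v x ^ 2 * B x‖ ≤ m₁ := by
    obtain ⟨M, hM⟩ := (isCompact_sphere (0 : ℂ) R₁).exists_bound_of_continuousOn
      (f := fun y => v y ^ 2 * B y) (hFc.mono fun x hx => by
        have : ‖x‖ = R₁ := by simpa using hx
        exact this.ge)
    exact ⟨M, fun x hx => hM x (by simpa using hx)⟩
  have hm₁0 : 0 ≤ m₁ := by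
    have h1 : ‖(R₁ : ℂ)‖ = R₁ := by
      rw [Complex.norm_real, Real.norm_eq_abs, abs_of_nonneg (by linarith)]
    exact le_trans (norm_nonneg _) (hm₁ _ h1)
  set A : ℝ := C ^ 2 * 4 ^ d / κ with hAdef
  have hA0 : 0 ≤ A := by positivity
  -- main estimate
  have main : ∀ x : ℂ, R₁ ≤ ‖x‖ → ‖v x ^ 2 * B x‖ ≤ 2 * m₁ + A * ‖x‖ ^ (d + 2) := by
    intro z hz
    set r : ℝ := ‖z‖ with hr
    have hS : IsCompact {x : ℂ | R₁ ≤ ‖x‖ ∧ ‖x‖ ≤ r} := by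
      have h1 : {x : ℂ | R₁ ≤ ‖x‖ ∧ ‖x‖ ≤ r} = closedBall 0 r ∩ {x : ℂ | R₁ ≤ ‖x‖} := by
        ext x
        simp [and_comm]
      rw [h1]
      exact (isCompact_closedBall 0 r).inter_right (isClosed_le continuous_const continuous_norm)
    obtain ⟨x, hxS, hx⟩ := hS.exists_isMaxOn (f := fun y => ‖v y ^ 2 * B y‖) ⟨z, hz, le_refl _⟩
      ((hFc.mono fun y hy => hy.1).norm)
    have hmax : ∀ y : ℂ, R₁ ≤ ‖y‖ → ‖y‖ ≤ r → ‖v y ^ 2 * B y‖ ≤ ‖v x ^ 2 * B x‖ :=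
      fun y h1 h2 => hx ⟨h1, h2⟩
    set m : ℝ := ‖v x ^ 2 * B x‖ with hm
    have hm0 : 0 ≤ m := norm_nonneg _
    have hx1 : R₁ ≤ ‖x‖ := hxS.1
    have hx2 : ‖x‖ ≤ r := hxS.2
    have hxpos : 0 < ‖x‖ := by linarith
    set D : ℝ := Real.sqrt (m * A * r ^ d) with hD
    have hrpos : 0 < r := by linarith
    -- the segment
    have hseg : ∀ y ∈ segment ℝ (((R₁ / ‖x‖ : ℝ) : ℂ) * x) x, R₁ ≤ ‖y‖ ∧ ‖y‖ ≤ r := by
      intro y hy
      rw [segment_eq_image] at hy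
      obtain ⟨t, ⟨ht0, ht1⟩, rfl⟩ := hy
      have h1 : (1 - t) • (((R₁ / ‖x‖ : ℝ) : ℂ) * x) + t • x =
          (((1 - t) * (R₁ / ‖x‖) + t : ℝ) : ℂ) * x := by
        rw [Complex.real_smul, Complex.real_smul]
        push_cast
        ring
      have h2 : 0 ≤ (1 - t) * (R₁ / ‖x‖) + t := by
        have : 0 ≤ R₁ / ‖x‖ := by positivity
        have : 0 ≤ 1 - t := by linarith
        positivity
      have h3 : ‖(1 - t) • (((R₁ / ‖x‖ : ℝ) : ℂ) * x) + t • x‖ = (1 - t) * R₁ + t * ‖x‖ := by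
        rw [h1, norm_mul, Complex.norm_real, Real.norm_eq_abs, abs_of_nonneg h2]
        field_simp
      show R₁ ≤ ‖(1 - t) • (((R₁ / ‖x‖ : ℝ) : ℂ) * x) + t • x‖ ∧
        ‖(1 - t) • (((R₁ / ‖x‖ : ℝ) : ℂ) * x) + t • x‖ ≤ r
      rw [h3]
      constructor
      · nlinarith
      · nlinarith
    have hbound : ∀ y ∈ segment ℝ (((R₁ / ‖x‖ : ℝ) : ℂ) * x) x, ‖v y * q y‖ ≤ D := by
      intro y hy
      obtain ⟨hy1, hy2⟩ := hseg y hy
      have hypos : 0 < ‖y‖ := by linarith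
      have h1 : κ * ‖y‖ ^ d ≤ ‖B y‖ := (hF y (le_trans hR1a hy1)).2
      have h2 : ‖v y‖ ^ 2 * ‖B y‖ ≤ m := by
        have := hmax y hy1 hy2
        rwa [norm_mul, norm_pow] at this
      have h3 : ‖q y‖ ≤ C * (2 * ‖y‖) ^ d := by
        refine le_trans (hqC y) ?_
        refine mul_le_mul_of_nonneg_left ?_ hC
        exact pow_le_pow_left₀ (by positivity) (by linarith) d
      rw [hD]
      refine Real.le_sqrt_of_sq_le ?_
      rw [norm_mul, mul_pow]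
      have hyd : 0 < ‖y‖ ^ d := by positivity
      have h4 : ‖v y‖ ^ 2 * (κ * ‖y‖ ^ d) ≤ m := le_trans (mul_le_mul_of_nonneg_left h1 (by positivity)) h2
      have h5 : ‖q y‖ ^ 2 ≤ (C * (2 * ‖y‖) ^ d) ^ 2 := pow_le_pow_left₀ (norm_nonneg _) h3 2
      have h6 : (C * (2 * ‖y‖) ^ d) ^ 2 = C ^ 2 * 4 ^ d * (‖y‖ ^ d * ‖y‖ ^ d) := by
        have : (4 : ℝ) ^ d = 2 ^ d * 2 ^ d := by
          rw [← mul_pow]; norm_num
        rw [this, mul_pow, mul_pow]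
        ring
      calc ‖v y‖ ^ 2 * ‖q y‖ ^ 2 ≤ ‖v y‖ ^ 2 * (C ^ 2 * 4 ^ d * (‖y‖ ^ d * ‖y‖ ^ d)) := by
            rw [← h6]
            exact mul_le_mul_of_nonneg_left h5 (by positivity)
        _ = (‖v y‖ ^ 2 * (κ * ‖y‖ ^ d)) * (C ^ 2 * 4 ^ d / κ * ‖y‖ ^ d) := by
            field_simp
        _ ≤ m * (C ^ 2 * 4 ^ d / κ * ‖y‖ ^ d) := mul_le_mul_of_nonneg_right h4 (by positivity)
        _ ≤ m * (C ^ 2 * 4 ^ d / κ * r ^ d) := by
            refine mul_le_mul_of_nonneg_left ?_ hm0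
            refine mul_le_mul_of_nonneg_left ?_ hA0
            exact pow_le_pow_left₀ (norm_nonneg _) hy2 d
        _ = m * A * r ^ d := by rw [hAdef]; ring
    have hmv : ‖(v x ^ 2 * B x) - (v (((R₁ / ‖x‖ : ℝ) : ℂ) * x) ^ 2 * B (((R₁ / ‖x‖ : ℝ) : ℂ) * x))‖ ≤
        D * ‖x - ((R₁ / ‖x‖ : ℝ) : ℂ) * x‖ := by
      refine Convex.norm_image_sub_le_of_norm_hasDerivWithin_le (𝕜 := ℂ)
        (f := fun y => v y ^ 2 * B y) (f' := fun y => v y * q y)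
        (s := segment ℝ (((R₁ / ‖x‖ : ℝ) : ℂ) * x) x) ?_ hbound (convex_segment _ _)
        (left_mem_segment ℝ _ _) (right_mem_segment ℝ _ _)
      intro y hy
      exact (hFd y (hseg y hy).1).hasDerivWithinAt
    have hx1n : ‖((R₁ / ‖x‖ : ℝ) : ℂ) * x‖ = R₁ := by
      rw [norm_mul, Complex.norm_real, Real.norm_eq_abs, abs_of_nonneg (by positivity)]
      field_simp
    have hdist : ‖x - ((R₁ / ‖x‖ : ℝ) : ℂ) * x‖ ≤ r := by
      have h1 : x - ((R₁ / ‖x‖ : ℝ) : ℂ) * x = ((1 - R₁ / ‖x‖ : ℝ) : ℂ) * x := by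
        push_cast; ring
      have h2 : R₁ / ‖x‖ ≤ 1 := (div_le_one hxpos).2 hx1
      have h3 : 0 ≤ R₁ / ‖x‖ := by positivity
      rw [h1, norm_mul, Complex.norm_real, Real.norm_eq_abs, abs_of_nonneg (by linarith)]
      nlinarith
    have hmm : m ≤ m₁ + D * r := by
      have h1 : m ≤ ‖v (((R₁ / ‖x‖ : ℝ) : ℂ) * x) ^ 2 * B (((R₁ / ‖x‖ : ℝ) : ℂ) * x)‖ +
          D * ‖x - ((R₁ / ‖x‖ : ℝ) : ℂ) * x‖ := by
        have := norm_sub_norm_le (v x ^ 2 * B x)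
          (v (((R₁ / ‖x‖ : ℝ) : ℂ) * x) ^ 2 * B (((R₁ / ‖x‖ : ℝ) : ℂ) * x))
        linarith
      have h2 := hm₁ _ hx1n
      have h3 : D * ‖x - ((R₁ / ‖x‖ : ℝ) : ℂ) * x‖ ≤ D * r :=
        mul_le_mul_of_nonneg_left hdist (Real.sqrt_nonneg _)
      linarith
    have hDr : D * r ≤ (m + A * r ^ (d + 2)) / 2 := by
      have h1 : (D * r) ^ 2 = m * (A * r ^ (d + 2)) := by
        rw [mul_pow, hD, Real.sq_sqrt (by positivity)]
        ring
      have h2 : 0 ≤ D * r := mul_nonneg (Real.sqrt_nonneg _) hrpos.le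
      have h3 : 0 ≤ A * r ^ (d + 2) := by positivity
      nlinarith [sq_nonneg (m - A * r ^ (d + 2))]
    have hfin : m ≤ 2 * m₁ + A * r ^ (d + 2) := by linarith
    exact le_trans (hmax z hz (le_refl _)) hfin
  -- linear growth of v
  refine FGR_lin v hv hv0 hv1 (Real.sqrt ((2 * m₁ + A) / κ)) R₁ ?_
  intro x hx
  have hxpos : 0 < ‖x‖ := by linarith
  have hx1 : 1 ≤ ‖x‖ := by linarith
  have h1 : κ * ‖x‖ ^ d ≤ ‖B x‖ := (hF x (le_trans hR1a hx)).2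
  have h2 := main x hx
  rw [norm_mul, norm_pow] at h2
  have hxd : 0 < ‖x‖ ^ d := by positivity
  have h3 : ‖v x‖ ^ 2 * (κ * ‖x‖ ^ d) ≤ 2 * m₁ + A * ‖x‖ ^ (d + 2) :=
    le_trans (mul_le_mul_of_nonneg_left h1 (by positivity)) h2
  have h4 : 2 * m₁ + A * ‖x‖ ^ (d + 2) ≤ (2 * m₁ + A) * ‖x‖ ^ (d + 2) := by
    have : 1 ≤ ‖x‖ ^ (d + 2) := one_le_pow₀ hx1
    nlinarith
  have h5 : ‖v x‖ ^ 2 ≤ (2 * m₁ + A) / κ * ‖x‖ ^ 2 := by
    have h6 : ‖v x‖ ^ 2 * (κ * ‖x‖ ^ d) ≤ ((2 * m₁ + A) / κ * ‖x‖ ^ 2) * (κ * ‖x‖ ^ d) := by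
      have : ((2 * m₁ + A) / κ * ‖x‖ ^ 2) * (κ * ‖x‖ ^ d) = (2 * m₁ + A) * ‖x‖ ^ (d + 2) := by
        rw [pow_add]
        field_simp
      rw [this]
      linarith
    exact le_of_mul_le_mul_right h6 (by positivity)
  have h7 : ‖v x‖ = Real.sqrt (‖v x‖ ^ 2) := (Real.sqrt_sq (norm_nonneg _)).symm
  have h8 : Real.sqrt ((2 * m₁ + A) / κ) * ‖x‖ = Real.sqrt ((2 * m₁ + A) / κ * ‖x‖ ^ 2) := by
    rw [Real.sqrt_mul (by positivity), Real.sqrt_sq hxpos.le]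
  rw [h7, h8]
  exact Real.sqrt_le_sqrt h5

end XPE
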